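import Pool.Agent.H727R4.CLT.Stmts

/-! Project H727-CLT, task Band (helper377): generalisation of `Helper553.Orth.band`. -/

set_option autoImplicit false
open MeasureTheory ProbabilityTheory Filter Topology Set Polynomial
open scoped ENNReal NNReal
open Pool.Agent.Helper553.Orth Pool.Agent.H727R4.CLT

namespace Pool.Agent.H377R4.CLT

/-- outside all intervals -/
def Out {m : ℕ} (xs : Fin m → ℝ) (l t : ℝ) : Prop := ∀ k, t ∉ Icc (xs k - l) (xs k + l)

theorem taskBand : TaskBand := by
  intro m n xs l δ Y Z1 Z2 hl hδ hA' hY hYn hZn hN1 hN2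
  have hA : ∀ x, Out xs l x → |Z1.eval x - Z2.eval x| ≤ δ * |Y.eval x| := fun x hx => hA' x hx
  classical
  set Num := derivative Z1 * Y - Z1 * derivative Y with hNum
  set E : Finset ℝ := (Y * Num).roots.toFinset ∪ (Finset.univ.image (fun k : Fin m => xs k - l) ∪
    Finset.univ.image (fun k : Fin m => xs k + l)) with hE
  have hEcard : E.card ≤ 3 * n + 2 * m := by
    calc E.card ≤ (Y * Num).roots.toFinset.card + (Finset.univ.image (fun k : Fin m => xs k - l) ∪
          Finset.univ.image (fun k : Fin m => xs k + l)).card :=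
          Finset.card_union_le _ _
      _ ≤ (Y * Num).natDegree + (m + m) := by
          apply add_le_add
          · exact (Multiset.toFinset_card_le _).trans (card_roots' _)
          · apply (Finset.card_union_le _ _).trans
            apply add_le_add
            · exact Finset.card_image_le.trans (by simp)
            · exact Finset.card_image_le.trans (by simp)
      _ ≤ 3 * n + 2 * m := by
          have h1 : Num.natDegree ≤ 2 * n := by
            rw [hNum]
            apply (natDegree_sub_le _ _).trans
            apply max_le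
            · apply natDegree_mul_le.trans
              have := natDegree_derivative_le Z1
              omega
            · apply natDegree_mul_le.trans
              have := natDegree_derivative_le Y
              omega
          have h2 : (Y * Num).natDegree ≤ Y.natDegree + Num.natDegree := natDegree_mul_le
          omega
  have hEY : ∀ x, x ∉ E → Y.eval x ≠ 0 := by
    intro x hx h0
    apply hx
    rw [hE, Finset.mem_union]
    left
    rw [Multiset.mem_toFinset, mem_roots (mul_ne_zero hY hN1), IsRoot, eval_mul, h0, zero_mul]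
  have hEN : ∀ x, x ∉ E → Num.eval x ≠ 0 := by
    intro x hx h0
    apply hx
    rw [hE, Finset.mem_union]
    left
    rw [Multiset.mem_toFinset, mem_roots (mul_ne_zero hY hN1), IsRoot, eval_mul, h0, mul_zero]
  have hc1 : ∀ k, xs k - l ∈ E := by
    intro k
    rw [hE, Finset.mem_union, Finset.mem_union]
    exact Or.inr (Or.inl (Finset.mem_image_of_mem _ (Finset.mem_univ k)))
  have hc2 : ∀ k, xs k + l ∈ E := by
    intro k
    rw [hE, Finset.mem_union, Finset.mem_union]
    exact Or.inr (Or.inr (Finset.mem_image_of_mem _ (Finset.mem_univ k)))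
  let I : ℕ → Set ℝ := fun j => {x | x ∉ E ∧ kap E x = j}
  let h2 : ℝ → ℝ := fun x => Z2.eval x / Y.eval x
  let F : Finset ℝ := E.image (fun e => -(Z1.eval e / Y.eval e)) ∪
    ((Finset.range (E.card + 1)).image (fun j => -(sInf (h2 '' I j))) ∪
      (Finset.range (E.card + 1)).image (fun j => -(sSup (h2 '' I j))))
  have hP1 : ∀ b : ℝ, C b * Y + Z1 ≠ 0 := by
    intro b h
    apply hN1
    have : Z1 = -(C b * Y) := by linear_combination h
    rw [hNum, this, derivative_neg, derivative_C_mul]
    ring
  have hP2 : ∀ b : ℝ, C b * Y + Z2 ≠ 0 := by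
    intro b h
    apply hN2
    have : Z2 = -(C b * Y) := by linear_combination h
    rw [this, derivative_neg, derivative_C_mul]
    ring
  refine ⟨F, ?_, ?_⟩
  · calc F.card ≤ (E.image (fun e => -(Z1.eval e / Y.eval e))).card +
          (((Finset.range (E.card + 1)).image (fun j => -(sInf (h2 '' I j))) ∪
      (Finset.range (E.card + 1)).image (fun j => -(sSup (h2 '' I j))))).card :=
          Finset.card_union_le _ _
      _ ≤ E.card + ((E.card + 1) + (E.card + 1)) := by
          apply add_le_add Finset.card_image_le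
          apply (Finset.card_union_le _ _).trans
          apply add_le_add
          · exact Finset.card_image_le.trans (by rw [Finset.card_range])
          · exact Finset.card_image_le.trans (by rw [Finset.card_range])
      _ ≤ 9 * n + 6 * m + 8 := by omega
  intro b hb
  have hbE : ∀ e ∈ E, Y.eval e ≠ 0 → b * Y.eval e + Z1.eval e ≠ 0 := by
    intro e he hYe h0
    have h1 := hb (-(Z1.eval e / Y.eval e))
      (Finset.mem_union_left _ (Finset.mem_image_of_mem _ he))
    have h3 : b - -(Z1.eval e / Y.eval e) = 0 := by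
      rw [sub_neg_eq_add]
      field_simp
      rw [mul_zero]
      exact h0
    rw [h3, abs_zero] at h1
    linarith
  -- continuity of h2 off E
  have hcont2 : ∀ x y : ℝ, (∀ e ∈ E, ¬ (x ≤ e ∧ e ≤ y)) → ContinuousOn h2 (Icc x y) := by
    intro x y hxy
    apply ContinuousOn.div Z2.continuous.continuousOn Y.continuous.continuousOn
    intro t ht
    exact hEY t (fun hte => hxy t hte ht)
  have hexist : ∀ x, Out xs l x → x ∉ E → b * Y.eval x + Z1.eval x = 0 →
      ∃ y, Out xs l y ∧ y ∉ E ∧ kap E y = kap E x ∧ b * Y.eval y + Z2.eval y = 0 := by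
    intro x hxA hxE hx0
    have hYx := hEY x hxE
    have hclose : |b + h2 x| ≤ δ := by
      have h3 := hA x hxA
      have h4 : b + h2 x = -(Z1.eval x - Z2.eval x) / Y.eval x := by
        show b + Z2.eval x / Y.eval x = _
        field_simp
        linarith
      rw [h4, abs_div, abs_neg, div_le_iff₀ (abs_pos.mpr hYx)]
      exact h3
    by_contra hcon
    push Not at hcon
    have hsame : ∀ y, y ∉ E → kap E y = kap E x → Out xs l y := by
      intro y hyE hk i hy
      rcases le_total x y with h | h
      · have hs := kap_sep h hxE hyE hk.symm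
        by_cases hxc : x ≤ xs i - l
        · exact hs _ (hc1 i) ⟨hxc, hy.1⟩
        · push Not at hxc
          exact hxA i ⟨hxc.le, h.trans hy.2⟩
      · have hs := kap_sep h hyE hxE hk
        by_cases hxc : xs i + l ≤ x
        · exact hs _ (hc2 i) ⟨hy.2, hxc⟩
        · push Not at hxc
          exact hxA i ⟨hy.1.trans h, hxc.le⟩
    have hne : ∀ y, y ∉ E → kap E y = kap E x → b + h2 y ≠ 0 := by
      intro y hyE hk h0
      apply hcon y (hsame y hyE hk) hyE hk
      have hYy := hEY y hyE
      have h5 : b + Z2.eval y / Y.eval y = 0 := h0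
      field_simp at h5
      linarith
    have hxI : x ∈ I (kap E x) := ⟨hxE, rfl⟩
    have hjr : kap E x ∈ Finset.range (E.card + 1) := by
      rw [Finset.mem_range]
      have := kap_le E x
      omega
    -- sign is constant on the piece
    have hsign : ∀ y, y ∉ E → kap E y = kap E x → 0 < (b + h2 x) * (b + h2 y) := by
      intro y hyE hk
      by_contra hle
      push Not at hle
      have hz : ∃ z, z ∉ E ∧ kap E z = kap E x ∧ b + h2 z = 0 := by
        rcases le_total x y with h | h
        · have hs := kap_sep h hxE hyE hk.symm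
          have hc : ContinuousOn (fun t => (b + h2 x) * (b + h2 t)) (Icc x y) :=
            continuousOn_const.mul (continuousOn_const.add (hcont2 x y hs))
          have h0 : (0 : ℝ) ∈ Icc ((b + h2 x) * (b + h2 y)) ((b + h2 x) * (b + h2 x)) :=
            ⟨hle, mul_self_nonneg _⟩
          obtain ⟨z, hz, hz0⟩ := intermediate_value_Icc' h hc h0
          obtain ⟨hzE, hzk⟩ := kap_mid hz.1 hz.2 hxE hyE hk.symm
          refine ⟨z, hzE, hzk, ?_⟩
          have := hne x hxE rfl
          exact (mul_eq_zero.mp hz0).resolve_left this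
        · have hs := kap_sep h hyE hxE hk
          have hc : ContinuousOn (fun t => (b + h2 x) * (b + h2 t)) (Icc y x) :=
            continuousOn_const.mul (continuousOn_const.add (hcont2 y x hs))
          have h0 : (0 : ℝ) ∈ Icc ((b + h2 x) * (b + h2 y)) ((b + h2 x) * (b + h2 x)) :=
            ⟨hle, mul_self_nonneg _⟩
          obtain ⟨z, hz, hz0⟩ := intermediate_value_Icc h hc h0
          obtain ⟨hzE, hzk⟩ := kap_mid hz.1 hz.2 hyE hxE hk
          refine ⟨z, hzE, hzk.trans hk, ?_⟩
          have := hne x hxE rfl
          exact (mul_eq_zero.mp hz0).resolve_left this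
      obtain ⟨z, hz1, hz2, hz3⟩ := hz
      exact hne z hz1 hz2 hz3
    rcases lt_or_gt_of_ne (hne x hxE rfl) with hneg | hpos
    · -- negative: use the supremum
      have hbd : ∀ y ∈ I (kap E x), h2 y ≤ -b := by
        intro y hy
        have := hsign y hy.1 hy.2
        have h6 : b + h2 y < 0 := by
          by_contra h7
          push Not at h7
          nlinarith
        linarith
      have h8 : h2 x ≤ sSup (h2 '' I (kap E x)) :=
        le_csSup ⟨-b, by rintro _ ⟨y, hy, rfl⟩; exact hbd y hy⟩ (mem_image_of_mem _ hxI)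
      have h9 : sSup (h2 '' I (kap E x)) ≤ -b :=
        csSup_le ⟨_, mem_image_of_mem _ hxI⟩ (by rintro _ ⟨y, hy, rfl⟩; exact hbd y hy)
      have h10 := hb (-(sSup (h2 '' I (kap E x)))) (Finset.mem_union_right _
        (Finset.mem_union_right _ (Finset.mem_image_of_mem _ hjr)))
      have h11 := (abs_le.mp hclose).1
      rw [sub_neg_eq_add] at h10
      have h12 : |b + sSup (h2 '' I (kap E x))| ≤ δ := by
        rw [abs_le]; constructor <;> linarith
      linarith
    · have hbd : ∀ y ∈ I (kap E x), -b ≤ h2 y := by
        intro y hy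
        have := hsign y hy.1 hy.2
        have h6 : 0 < b + h2 y := by
          by_contra h7
          push Not at h7
          nlinarith
        linarith
      have h8 : sInf (h2 '' I (kap E x)) ≤ h2 x :=
        csInf_le ⟨-b, by rintro _ ⟨y, hy, rfl⟩; exact hbd y hy⟩ (mem_image_of_mem _ hxI)
      have h9 : -b ≤ sInf (h2 '' I (kap E x)) :=
        le_csInf ⟨_, mem_image_of_mem _ hxI⟩ (by rintro _ ⟨y, hy, rfl⟩; exact hbd y hy)
      have h10 := hb (-(sInf (h2 '' I (kap E x)))) (Finset.mem_union_right _
        (Finset.mem_union_left _ (Finset.mem_image_of_mem _ hjr)))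
      have h11 := (abs_le.mp hclose).2
      rw [sub_neg_eq_add] at h10
      have h12 : |b + sInf (h2 '' I (kap E x))| ≤ δ := by
        rw [abs_le]; constructor <;> linarith
      linarith
  -- the injection
  let g : ℝ → ℝ := fun x => if hx : Out xs l x ∧ x ∉ E ∧ b * Y.eval x + Z1.eval x = 0 then
    (hexist x hx.1 hx.2.1 hx.2.2).choose else x
  have hg : ∀ x, (hx : Out xs l x ∧ x ∉ E ∧ b * Y.eval x + Z1.eval x = 0) →
      (Out xs l (g x) ∧ g x ∉ E ∧ kap E (g x) = kap E x ∧ b * Y.eval (g x) + Z2.eval (g x) = 0) := by
    intro x hx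
    have := (hexist x hx.1 hx.2.1 hx.2.2).choose_spec
    simp only [g, dif_pos hx]
    exact this
  have hroot1 : ∀ x, x ∈ (C b * Y + Z1).roots.toFinset ↔ b * Y.eval x + Z1.eval x = 0 := by
    intro x
    rw [Multiset.mem_toFinset, mem_roots (hP1 b), IsRoot, eval_add, eval_mul, eval_C]
  have hroot2 : ∀ x, x ∈ (C b * Y + Z2).roots.toFinset ↔ b * Y.eval x + Z2.eval x = 0 := by
    intro x
    rw [Multiset.mem_toFinset, mem_roots (hP2 b), IsRoot, eval_add, eval_mul, eval_C]
  have hgE : ∀ x, x ∈ E → g x = x := by
    intro x hx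
    simp only [g]
    rw [dif_neg]
    rintro ⟨_, h, _⟩
    exact h hx
  unfold nrx
  apply Finset.card_le_card_of_injOn g
  · intro x hx
    have hx0 := Finset.mem_filter.mp (Finset.mem_coe.mp hx)
    have hx' : b * Y.eval x + Z1.eval x = 0 ∧ Out xs l x := ⟨(hroot1 x).mp hx0.1, hx0.2⟩
    rw [Finset.mem_coe, Finset.mem_filter, hroot2]
    show b * Y.eval (g x) + Z2.eval (g x) = 0 ∧ Out xs l (g x)
    by_cases hxE : x ∈ E
    · rw [hgE x hxE]
      have hYx : Y.eval x = 0 := by
        by_contra h
        exact hbE x hxE h hx'.1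
      have hZx : Z1.eval x = 0 := by
        have := hx'.1; rw [hYx, mul_zero, zero_add] at this; exact this
      have h3 := hA x hx'.2
      rw [hYx, hZx, abs_zero, mul_zero, zero_sub, abs_neg] at h3
      have h4 : Z2.eval x = 0 := abs_eq_zero.mp (le_antisymm h3 (abs_nonneg _))
      exact ⟨by rw [hYx, h4]; ring, hx'.2⟩
    · have := hg x ⟨hx'.2, hxE, hx'.1⟩
      exact ⟨this.2.2.2, this.1⟩
  · intro x hx y hy hxy
    have hx0 := Finset.mem_filter.mp (Finset.mem_coe.mp hx)
    have hx' : b * Y.eval x + Z1.eval x = 0 ∧ Out xs l x := ⟨(hroot1 x).mp hx0.1, hx0.2⟩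
    have hy0 := Finset.mem_filter.mp (Finset.mem_coe.mp hy)
    have hy' : b * Y.eval y + Z1.eval y = 0 ∧ Out xs l y := ⟨(hroot1 y).mp hy0.1, hy0.2⟩
    by_cases hxE : x ∈ E
    · by_cases hyE : y ∈ E
      · rw [hgE x hxE, hgE y hyE] at hxy; exact hxy
      · exfalso
        have := hg y ⟨hy'.2, hyE, hy'.1⟩
        rw [← hxy, hgE x hxE] at this
        exact this.2.1 hxE
    · by_cases hyE : y ∈ E
      · exfalso
        have := hg x ⟨hx'.2, hxE, hx'.1⟩
        rw [hxy, hgE y hyE] at this
        exact this.2.1 hyE
      · have h1 := hg x ⟨hx'.2, hxE, hx'.1⟩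
        have h3 := hg y ⟨hy'.2, hyE, hy'.1⟩
        have hk : kap E x = kap E y := by
          rw [← h1.2.2.1, ← h3.2.2.1, hxy]
        have rolle : ∀ u v : ℝ, u < v → u ∉ E → v ∉ E → kap E u = kap E v →
            b * Y.eval u + Z1.eval u = 0 → b * Y.eval v + Z1.eval v = 0 → False := by
          intro u v huv huE hvE hkuv hu0 hv0
          have hs := kap_sep huv.le huE hvE hkuv
          have hYne : ∀ t ∈ Icc u v, Y.eval t ≠ 0 := fun t ht => hEY t (fun hte => hs t hte ht)
          have hval : ∀ t, Y.eval t ≠ 0 → b * Y.eval t + Z1.eval t = 0 →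
              Z1.eval t / Y.eval t = -b := by
            intro t ht h0
            field_simp
            linarith
          obtain ⟨ξ, hξ, hξ0⟩ := exists_hasDerivAt_eq_zero
            (f := fun t => Z1.eval t / Y.eval t)
            (f' := fun t => ((derivative Z1).eval t * Y.eval t - Z1.eval t * (derivative Y).eval t) /
              (Y.eval t) ^ 2) huv
            (ContinuousOn.div Z1.continuous.continuousOn Y.continuous.continuousOn hYne)
            (by rw [hval u (hYne u ⟨le_refl _, huv.le⟩) hu0,
                  hval v (hYne v ⟨huv.le, le_refl _⟩) hv0])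
            (by
              intro t ht
              exact (Z1.hasDerivAt t).div (Y.hasDerivAt t) (hYne t ⟨ht.1.le, ht.2.le⟩))
          have hξE : ξ ∉ E := fun h => hs ξ h ⟨hξ.1.le, hξ.2.le⟩
          apply hEN ξ hξE
          have hYξ := hYne ξ ⟨hξ.1.le, hξ.2.le⟩
          rw [hNum, eval_sub, eval_mul, eval_mul]
          have h5 := hξ0
          rw [div_eq_zero_iff] at h5
          rcases h5 with h5 | h5
          · exact h5
          · exact absurd h5 (pow_ne_zero _ hYξ)
        rcases lt_trichotomy x y with h | h | h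
        · exact (rolle x y h hxE hyE hk hx'.1 hy'.1).elim
        · exact h
        · exact (rolle y x h hyE hxE hk.symm hy'.1 hx'.1).elim

end Pool.Agent.H377R4.CLT
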